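import Pool.Agent.H70.Burn

set_option autoImplicit false

namespace Pool.Agent.Results.MP_836feb_al.NonFreeRetract

open Pool.Agent.H70.BurnDefs

theorem result (a b : ℕ) (ha : 1 < a) (hb : 1 < b) (hab : a.Coprime b)
    (α : Type) (x : α) (s : Finset α) (hx : x ∉ s) :
    IsRetract (Subgroup.closure (insert (gen (a * b) x ^ a) (gen (a * b) '' s))) ∧
    ∀ β : Type, IsEmpty
      (Subgroup.closure (insert (gen (a * b) x ^ a) (gen (a * b) '' s)) ≃* B β (a * b)) :=
  Pool.Agent.H70.Burn.main a b ha hb hab α x s hx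

end Pool.Agent.Results.MP_836feb_al.NonFreeRetract
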